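import Pool.Agent.H99.TN3

/-! The convolution classes `T(α, β)` are normal families. -/

open Filter Topology Set Metric

noncomputable section

namespace Pool.Agent.Results.MP_c40ba2_an.Normal

/-- The `n`-th Taylor coefficient at the origin. -/
def coef (f : ℂ → ℂ) (n : ℕ) : ℂ := iteratedDeriv n f 0 / n.factorial

/-- The Hadamard convolution. -/
def conv (f g : ℂ → ℂ) (z : ℂ) : ℂ := ∑' n, coef f n * coef g n * z ^ n

/-- The class `T(α, β)`. -/
def T (α β : ℝ) : Set (ℂ → ℂ) :=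
  {φ | DifferentiableOn ℂ φ (ball 0 1) ∧ φ 0 = 1 ∧ ∀ x : ℂ, ‖x‖ = 1 → ∀ z ∈ ball (0 : ℂ) 1,
    conv φ (fun w => (1 + x * w) ^ (α : ℂ) / (1 - w) ^ (β : ℂ)) z ≠ 0}

open Pool.Agent.H99.TN

theorem binom (s : ℝ) {u : ℂ} (hu : ‖u‖ < 1) :
    HasSum (fun k => ch s k * u ^ k) ((1 + u) ^ (s : ℂ)) := by
  have := (Complex.one_add_cpow_hasFPowerSeriesOnBall_zero (a := s)).hasSum (y := u)
    (by rw [eball_one]; simpa using hu)
  simpa [binomialSeries, FormalMultilinearSeries.ofScalars_apply_eq, mul_comm, ch,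
    Complex.ofReal_choose] using this

theorem taylor {φ : ℂ → ℂ} (h : DifferentiableOn ℂ φ (ball 0 1)) {z : ℂ} (hz : ‖z‖ < 1) :
    HasSum (fun n => coef φ n * z ^ n) (φ z) := by
  convert! Complex.hasSum_taylorSeries_on_ball h (z := z) (by simpa using hz) using 2 with n
  simp only [coef, sub_zero, smul_eq_mul]
  ring

theorem good_one : Good fun _ => 1 := fun r h0 h1 =>
  ⟨1, fun n => by simpa using pow_le_one₀ h0.le h1.le⟩

theorem diag_eq (A B : ℕ → ℝ) (x y w : ℂ) (n : ℕ) :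
    ∑ p ∈ Finset.HasAntidiagonal.antidiagonal n, (A p.1 * (x * w) ^ p.1) * (B p.2 * (y * w) ^ p.2) =
      (∑ p ∈ Finset.HasAntidiagonal.antidiagonal n, (A p.1 * x ^ p.1) * (B p.2 * y ^ p.2)) *
        w ^ n := by
  rw [Finset.sum_mul]
  refine Finset.sum_congr rfl fun p hp => ?_
  rw [← Finset.HasAntidiagonal.mem_antidiagonal.1 hp, pow_add, mul_pow, mul_pow]
  ring

theorem coef_bound {α β : ℝ} (hα : 1 ≤ α) (hβ : 1 ≤ β) {r : ℝ} (hr0 : 0 < r) (hr : r < 1) :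
    ∃ C, ∀ φ ∈ T α β, ∀ n, ‖coef φ n‖ * r ^ n ≤ C := by
  obtain ⟨C, hC⟩ := bound hα hβ hr0 hr
  obtain ⟨M, hM⟩ := exists_nat_ge (α + β)
  have hA : Bd M (ch α) := abs_ch_le (by rw [abs_of_pos (by linarith)]; linarith)
  have hB : Bd M (ch (-β)) := abs_ch_le (by rw [abs_neg, abs_of_pos (by linarith)]; linarith)
  refine ⟨C, fun φ ⟨h1, h2, h3⟩ => ?_⟩
  have hg : Good (coef φ) := good_of_summable fun z hz => (taylor h1 hz).summable
  have key : ∀ x z : ℂ, ‖x‖ = 1 → ‖z‖ < 1 →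
      GG (coef φ) (ch α) (ch (-β)) (x * z) (-1 * z) ≠ 0 := by
    intro x z hx hz
    have hk : ∀ w : ℂ, ‖w‖ < 1 → HasSum (fun n => (∑ p ∈ Finset.HasAntidiagonal.antidiagonal n,
        (ch α p.1 * x ^ p.1) * (ch (-β) p.2 * (-1) ^ p.2)) * w ^ n)
        ((1 + x * w) ^ (α : ℂ) / (1 - w) ^ (β : ℂ)) := by
      intro w hw
      have h4 : ‖x * w‖ < 1 := by simpa [hx] using hw
      have h5 : ‖-1 * w‖ < 1 := by simpa using hw
      have h6 := hasSum_diag good_one hA hB h4 h5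
      simp only [one_mul, diag_eq] at h6
      convert h6 using 1
      refine HasSum.unique ?_ (hasSum_GG good_one hA hB h4 h5)
      have h7 : ∀ l, ee (fun _ => 1) (ch α) (x * w) l = (1 + x * w) ^ (α : ℂ) := fun l => by
        simpa [ee, ps] using (binom α h4).tsum_eq
      convert! (binom (-β) h5).mul_left ((1 + x * w) ^ (α : ℂ)) using 1
      · funext l
        rw [h7]
        ring
      · rw [Complex.ofReal_neg, Complex.cpow_neg, div_eq_mul_inv, neg_one_mul, sub_eq_add_neg]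
    have h8 := hasSum_diag hg hA hB (u := x * z) (v := -1 * z) (by simpa [hx] using hz)
      (by simpa using hz)
    simp only [diag_eq] at h8
    rw [← h8.tsum_eq]
    convert h3 x hx z (mem_ball_zero_iff.2 hz) using 1
    refine tsum_congr fun n => ?_
    have : (n.factorial : ℂ) ≠ 0 := by exact_mod_cast n.factorial_ne_zero
    rw [mul_assoc]
    congr 2
    rw [coef, coeff_of_hasSum hk n, mul_div_cancel_left₀ _ this]
  refine hC _ hg (by simp [coef, h2]) fun u v huv hu => ?_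
  by_cases hv : v = 0
  · have hu0 : u = 0 := by simpa [hv] using huv
    simpa [hu0, hv] using key 1 0 (by simp) (by simp)
  · have := key (u / (-v)) (-v) (by
      rw [norm_div, norm_neg, huv, div_self (norm_ne_zero_iff.2 hv)]) (by rwa [norm_neg, ← huv])
    rwa [div_mul_cancel₀ _ (neg_ne_zero.2 hv), neg_one_mul, neg_neg] at this

theorem maj {a : ℂ} {C r q : ℝ} {n : ℕ} (hr : 0 ≤ r) (hq : 0 < q) (h : ‖a‖ * q ^ n ≤ C) :
    ‖a‖ * r ^ n ≤ C * (r / q) ^ n := by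
  calc _ = ‖a‖ * q ^ n * (r / q) ^ n := by rw [div_pow]; field_simp
    _ ≤ _ := by gcongr

theorem joint (α β : ℝ) (hα : 1 ≤ α) (hβ : 1 ≤ β) :
    (∀ r : ℝ, r < 1 → ∃ C : ℝ, ∀ φ ∈ T α β, ∀ z : ℂ, ‖z‖ ≤ r → ‖φ z‖ ≤ C) ∧
    ∀ φ : ℕ → ℂ → ℂ, (∀ k, φ k ∈ T α β) → ∃ (s : ℕ → ℕ) (f : ℂ → ℂ), StrictMono s ∧
      TendstoLocallyUniformlyOn (fun k => φ (s k)) f atTop (ball 0 1) := by
  have H : ∀ r : ℝ, 0 ≤ r → r < 1 → ∃ u : ℕ → ℝ, Summable u ∧
      ∀ φ ∈ T α β, ∀ n, ‖coef φ n‖ * r ^ n ≤ u n := by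
    intro r h0 h1
    obtain ⟨q, hq1, hq2⟩ := exists_between h1
    have hq0 := h0.trans_lt hq1
    obtain ⟨C, hC⟩ := coef_bound hα hβ hq0 hq2
    exact ⟨_, (summable_geometric_of_lt_one (by positivity) ((div_lt_one hq0).2 hq1)).mul_left C,
      fun φ hφ n => maj h0 hq0 (hC φ hφ n)⟩
  refine ⟨fun r hr => ?_, fun φ hφ => ?_⟩
  · obtain ⟨u, hu, h⟩ := H (max r 0) (le_max_right _ _) (max_lt hr one_pos)
    refine ⟨∑' n, u n, fun φ hφ z hz =>
      (taylor hφ.1 (hz.trans_lt hr)).norm_le_of_bounded hu.hasSum fun n => ?_⟩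
    rw [norm_mul, norm_pow]
    exact le_trans (by gcongr; exact hz.trans (le_max_left _ _)) (h φ hφ n)
  obtain ⟨C, hC⟩ := coef_bound hα hβ (r := 1 / 2) (by norm_num) (by norm_num)
  obtain ⟨a, -, s, hs, ha⟩ := (isCompact_univ_pi fun n : ℕ =>
    isCompact_closedBall (0 : ℂ) (C / (1 / 2) ^ n)).tendsto_subseq (x := fun k => coef (φ k))
    fun k n _ => mem_closedBall_zero_iff.2 ((le_div_iff₀ (by positivity)).2 (hC _ (hφ k) n))
  rw [tendsto_pi_nhds] at ha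
  refine ⟨s, ps a, hs, (tendstoLocallyUniformlyOn_iff_forall_isCompact isOpen_ball).2
    fun K hK hKc => ?_⟩
  obtain ⟨r, hr0, hr1, hr⟩ : ∃ r, 0 ≤ r ∧ r < 1 ∧ ∀ z ∈ K, ‖z‖ ≤ r := by
    rcases K.eq_empty_or_nonempty with h | h
    · exact ⟨0, le_rfl, one_pos, by simp [h]⟩
    · obtain ⟨z, hz, hm⟩ := hKc.exists_isMaxOn h continuous_norm.continuousOn
      exact ⟨‖z‖, norm_nonneg _, mem_ball_zero_iff.1 (hK hz), fun w hw => hm hw⟩
  obtain ⟨u, hu, h⟩ := H r hr0 hr1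
  have h1 : ∀ n, ‖a n‖ * r ^ n ≤ u n := fun n =>
    le_of_tendsto' ((ha n).norm.mul_const _) fun k => h _ (hφ _) n
  have h2 : ∀ k n, ‖a n - coef (φ (s k)) n‖ * r ^ n ≤ u n + u n := fun k n =>
    le_trans (by rw [← add_mul]; gcongr; exact norm_sub_le _ _) (add_le_add (h1 n) (h _ (hφ _) n))
  have h3 := tendsto_tsum_of_dominated_convergence (𝓕 := atTop)
    (f := fun k n => ‖a n - coef (φ (s k)) n‖ * r ^ n) (g := fun _ => 0) (hu.add hu)
    (fun n => by simpa using ((tendsto_const_nhds (x := a n)).sub (ha n)).norm.mul_const (r ^ n))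
    (Eventually.of_forall fun k n => by
      rw [Real.norm_eq_abs, abs_of_nonneg (by positivity)]
      exact h2 k n)
  rw [tsum_zero] at h3
  refine Metric.tendstoUniformlyOn_iff.2 fun ε hε => ?_
  filter_upwards [h3.eventually (gt_mem_nhds hε)] with k hk z hz
  have h4 : Summable fun n => a n * z ^ n := .of_norm_bounded hu fun n => by
    rw [norm_mul, norm_pow]
    exact le_trans (by gcongr; exact hr z hz) (h1 n)
  rw [dist_eq_norm]
  refine ((h4.hasSum.sub (taylor (hφ (s k)).1 ((hr z hz).trans_lt hr1))).norm_le_of_bounded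
    (Summable.of_nonneg_of_le (fun n => by positivity) (h2 k) (hu.add hu)).hasSum
    fun n => ?_).trans_lt hk
  rw [← sub_mul, norm_mul, norm_pow]
  gcongr
  exact hr z hz

theorem result (α β : ℝ) (hα : 1 ≤ α) (hβ : 1 ≤ β) (φ : ℕ → ℂ → ℂ) (hφ : ∀ k, φ k ∈ T α β) :
    ∃ (s : ℕ → ℕ) (f : ℂ → ℂ), StrictMono s ∧
      TendstoLocallyUniformlyOn (fun k => φ (s k)) f atTop (ball 0 1) :=
  (joint α β hα hβ).2 φ hφ

end Pool.Agent.Results.MP_c40ba2_an.Normal
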